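import Pool.Agent.LPR.Stmts
import Pool.Agent.LSG.StmtsF

/-!
# Squad CMG (MP_005a41_gt): completely metrizable groups are l-stable

THEOREM (`FncStmt`).  Every infinite completely metrizable topological group (abelian or not, of any density) is
l-stable.

IDEA.  Not precompact: landed (`Results/MP_005a41_gt/NonPrecompactGroups.lean`).  Precompact and completely metrizable: compact (KLE).
Compact and totally disconnected: homeomorphic to the Cantor set, as is the product with `OnePoint ℕ` (BRO CPT).  Compact, not totally
disconnected: there is a nontrivial one-parameter subgroup (NCG), and `Results/MP_005a41_gt/LocalProducts.lean` applies.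

RULES.  One file per row: `Pool/Agent/HelperNN_CMG/XXX.lean`, import `Pool.Agent.CMG.Stmts`, namespace `Pool.Agent.CMG.HNN`,
`open Pool.Agent.LSG Pool.Agent.CMG`, theorem `xxx (the rows used, as hypotheses, in the order of uses) : XxxStmt`.
Never `convert`, `congr!`, straight double quotes.
-/

set_option autoImplicit false

open Set Topology MeasureTheory
open scoped BigOperators Pointwise

namespace Pool.Agent.CMG

open Pool.Agent.LSG

/-- the homomorphisms from `D` to the circle, with the topology of pointwise convergence (a compact group) -/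
def homs (D : Type) [CommGroup D] : Subgroup (D → Circle) where
  carrier := {u | ∀ a b, u (a * b) = u a * u b}
  mul_mem' := by
    intro u v hu hv a b
    simp only [Pi.mul_apply]
    rw [hu a b, hv a b, mul_mul_mul_comm]
  one_mem' := by
    intro a b
    simp
  inv_mem' := by
    intro u hu a b
    simp only [Pi.inv_apply]
    rw [hu a b, mul_inv]

/-! ## Block P: duality -/

/-- **ORT** (easy).  The integral of a nontrivial character is 0.
PROOF. `∫ ψ (x₀ x) = ψ x₀ ∫ ψ x` (left invariance), `ψ x₀ ≠ 1`. -/
def OrtStmt : Prop := ∀ (K : Type) [Group K] [TopologicalSpace K] [IsTopologicalGroup K]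
  [CompactSpace K] [MeasurableSpace K] [BorelSpace K] (μ : Measure K) [μ.IsHaarMeasure]
  (ψ : K → Circle), Continuous ψ → (∀ x y, ψ (x * y) = ψ x * ψ y) → (∃ x, ψ x ≠ 1) →
  ∫ x, ((ψ x : Circle) : ℂ) ∂μ = 0

/-- **EVA** (medium; uses ORT).  Every continuous character of `homs D` is an evaluation.
PROOF. `G = homs D` is a compact Hausdorff group (closed subgroup of `D → Circle`), `μ` = Haar measure (Borel σ-algebra).  The finite linear combinations of the evaluations `e_d : u ↦ (u d : ℂ)` are a star subalgebra of `C(G, ℂ)`
(`e_d e_d' = e_(d d')`, `conj e_d = e_(d⁻¹)`) which separates points: dense (Stone-Weierstrass, `ContinuousMap.starSubalgebra_topologicalClosure_eq_top_of_separatesPoints`).  Suppose `ψ ≠ e_d` for all `d`.  Then `ψ * conj e_d` is a nontrivial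
character, so `∫ ψ * conj e_d = 0` (ORT) for all `d`, hence `∫ ψ * conj f = 0` for all `f ∈ C(G, ℂ)`, in particular for `f = ψ`: `∫ 1 = 0`, contradiction. -/
def EvaStmt : Prop := ∀ (D : Type) [CommGroup D] (ψ : ↥(homs D) → Circle), Continuous ψ →
  (∀ u v, ψ (u * v) = ψ u * ψ v) → ∃ d : D, ∀ u : ↥(homs D), ψ u = u.1 d

/-- **CNT** (easy-medium).  A compact metrizable group has only countably many characters.
PROOF. `C(K, ℂ)` is separable (second countable).  Two different characters have distance `≥ 1`: if `‖χ - χ'‖ < 1` then `χ χ'⁻¹` takes values `z` with `|z - 1| < 1`; its image is a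
subgroup of the circle contained in that arc, so it is trivial (powers of `z ≠ 1` leave the arc).  A subset of a separable metric space whose points have mutual distance `≥ 1` is countable. -/
def CntStmt : Prop := ∀ (K : Type) [Group K] [TopologicalSpace K] [IsTopologicalGroup K]
  [CompactSpace K] [TopologicalSpace.MetrizableSpace K], Countable (K →ₜ* Circle)

/-- **CHR** (medium; uses PWN).  Characters separate the points of a compact metrizable commutative group.
PROOF. PWN for `x`: `ρ`, `ρ x ≠ 1`.  The unitary matrix `ρ x` is diagonalizable, so it has an eigenvalue `α ≠ 1`; `V` = its eigenspace is not 0 and invariant under all `ρ z` (they commute with `ρ x`).  The commuting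
operators `ρ z` on the finite dimensional space `V` have a common eigenvector `v` (induction on the dimension, or a minimal invariant subspace).  `ρ z v = χ z v`, `|χ z| = 1`, `χ` is a continuous
homomorphism (`χ z = ⟪v, ρ z v⟫ / ‖v‖ ^ 2`), `χ x = α`. -/
def ChrStmt : Prop := ∀ (K : Type) [Group K] [TopologicalSpace K] [IsTopologicalGroup K]
  [CompactSpace K] [TopologicalSpace.MetrizableSpace K], (∀ a b : K, a * b = b * a) →
  ∀ x : K, x ≠ 1 → ∃ χ : K →ₜ* Circle, χ x ≠ 1

/-- **SUR** (medium; uses EVA CNT CHR QMN).  Duality: every homomorphism from the dual group is a point.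
PROOF. `D = (K →ₜ* Circle)` is countable (CNT), `G = homs D` is a compact metrizable commutative group.  `j : K → G`, `j k = (χ ↦ χ k)`, a continuous homomorphism, `E` = its image, compact, so closed; a normal subgroup.  Suppose `u ∉ E`.  `G ⧸ E` is
compact, metrizable (QMN), commutative, and the class of `u` is not 1: CHR gives a continuous character of `G ⧸ E` which is not 1 at `u`; let `ψ` be its pull back to `G`.  EVA: `ψ = e_χ` for some `χ ∈ D`.  `ψ = 1` on `E`: `χ k = 1` for
all `k`, so `χ = 1` and `ψ u = u χ = 1` (`u` is a homomorphism): contradiction. -/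
def SurStmt : Prop := ∀ (K : Type) [Group K] [TopologicalSpace K] [IsTopologicalGroup K]
  [CompactSpace K] [TopologicalSpace.MetrizableSpace K], (∀ a b : K, a * b = b * a) →
  ∀ u : ↥(homs (K →ₜ* Circle)), ∃ k : K, ∀ χ : K →ₜ* Circle, u.1 χ = χ k

/-- **HOM** (easy-medium).  A real homomorphism which is 1 at an element of infinite order.
PROOF. `ℝ` is divisible, so an injective abelian group (Baer; `AddCommGrp.injective_of_divisible` or the like, or Zorn's lemma, or: localise `Additive D` at the nonzero integers, a vector space over `ℚ`, in which `x` is not 0, and take a linear functional). -/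
def HomStmt : Prop := ∀ (D : Type) [CommGroup D] (x : D), (∀ n : ℕ, 0 < n → x ^ n ≠ 1) →
  ∃ h : D → ℝ, (∀ a b, h (a * b) = h a + h b) ∧ h x = 1

/-- **OPB** (medium; uses CHR SUR HOM).  One-parameter subgroups.
PROOF. `D = (K →ₜ* Circle)`; the hypothesis says that `χ ∈ D` has infinite order: HOM gives `h : D → ℝ`, `h χ = 1`.  `e_t = (d ↦ Circle.exp (t * h d)) ∈ homs D`; SUR: `γ t ∈ K` with `d (γ t) = e_t d` for all `d ∈ D`.  `j : K → homs D`, `j k = (d ↦ d k)`, is continuous
and injective (CHR), so a topological embedding (compact), and `t ↦ j (γ t) = e_t` is continuous: `γ` is continuous.  `j` is an injective homomorphism, so `γ (s + t) = γ s γ t`.  `χ (γ 1) = Circle.exp 1 ≠ 1`. -/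
def OpbStmt : Prop := ∀ (K : Type) [Group K] [TopologicalSpace K] [IsTopologicalGroup K]
  [CompactSpace K] [TopologicalSpace.MetrizableSpace K], (∀ a b : K, a * b = b * a) →
  ∀ χ : K →ₜ* Circle, (∀ n : ℕ, 0 < n → ∃ k, (χ k) ^ n ≠ 1) →
  ∃ γ : ℝ → K, Continuous γ ∧ (∀ s t, γ (s + t) = γ s * γ t) ∧ ∃ t, γ t ≠ 1

/-! ## Block Q: Peter-Weyl -/

/-- **KER** (medium-strong).  Integral operators with a continuous kernel are compact.
PROOF. `μ` is finite on the compact space `K`.  For `v ∈ L²` `x ↦ ∫ κ (x, y) v y` is continuous (`κ` is uniformly continuous, `v ∈ L¹`), linear in `v`, `‖·‖_∞ ≤ sup |κ| μ(K)^(1/2) ‖v‖`; so `T` = this map to `C(K, ℂ)` followed by `ContinuousMap.toLp`.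
Compact: (a) the image of the unit ball in `C(K, ℂ)` is bounded and equicontinuous (Arzela-Ascoli: `BoundedContinuousFunction.arzela_ascoli`, `ContinuousMap` versions), or (b) `κ` is a uniform limit of finite sums `∑ a_i(x) b_i(y)` (a partition of unity in
`x`), which give operators of finite rank; limits of compact operators are compact (`isCompactOperator_of_tendsto`). -/
def KerStmt : Prop := ∀ (K : Type) [TopologicalSpace K] [CompactSpace K]
  [TopologicalSpace.MetrizableSpace K] [MeasurableSpace K] [BorelSpace K] (μ : Measure K)
  [IsFiniteMeasure μ] (κ : C(K × K, ℂ)), ∃ T : Lp ℂ 2 μ →L[ℂ] Lp ℂ 2 μ, IsCompactOperator T ∧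
    ∀ v : Lp ℂ 2 μ, (T v : K → ℂ) =ᵐ[μ] fun x => ∫ y, κ (x, y) * v y ∂μ

/-- **CNV** (medium-strong; uses KER).  A compact convolution operator and the left regular representation.
PROOF. `μ` = Haar measure, `E = Lp ℂ 2 μ`, `r z v = v (z⁻¹ ·)` (measure preserving; `Lp.compMeasurePreservingₗᵢ` or the action of `Kᵈᵐᵃ` on `Lp`, Mathlib.MeasureTheory.Function.LpSpace.DomAct.Continuous: continuous).  `W` an open symmetric neighbourhood of 1 with
`g ∉ W W W W`, `k : K → ℝ` continuous, `k ≥ 0`, `k 1 > 0`, `k = 0` off `W`, `k x⁻¹ = k x`.  `κ (x, y) = k (x⁻¹ y)`, `T` from KER.  `κ (z x, z y) = κ (x, y)`: `T` commutes with `r z`.  `κ` real and symmetric: `T` self-adjoint (Fubini; `K` is second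
countable).  `w` = the class of `k`: `T w x = ∫ k (x⁻¹ y) k y dy` vanishes off `W W`, is `≥ 0` and positive near 1, so `T w ≠ 0`; `r g (T w)` vanishes off `g W W`, which is disjoint from `W W`: `r g (T w) ≠ T w`. -/
def CnvStmt : Prop := ∀ (K : Type) [Group K] [TopologicalSpace K] [IsTopologicalGroup K]
  [CompactSpace K] [TopologicalSpace.MetrizableSpace K] (g : K), g ≠ 1 →
  ∃ (E : Type) (_ : NormedAddCommGroup E) (_ : InnerProductSpace ℂ E) (_ : CompleteSpace E)
    (r : K →* (E ≃ₗᵢ[ℂ] E)) (T : E →L[ℂ] E) (w : E), (∀ v, Continuous fun z => r z v) ∧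
    IsSelfAdjoint T ∧ IsCompactOperator T ∧ (∀ z v, r z (T v) = T (r z v)) ∧ r g (T w) ≠ T w

/-- **PWN** (medium; uses CNV).  Peter-Weyl: finite dimensional unitary representations separate the points.
PROOF. `E`, `r`, `T`, `w` from CNV, `u = r g⁻¹ w - w`: `T u = r g⁻¹ (T w) - T w ≠ 0`.  If every eigenvector `v` of `T` with eigenvalue `c ≠ 0` had `r g v = v`, then `⟪v, u⟫ = ⟪r g v, w⟫ - ⟪v, w⟫ = 0`, so `⟪v, T u⟫ = 0` for all eigenvectors (also for
`c = 0`, `T` symmetric), and `T u = 0` by the spectral theorem (`ContinuousLinearMap.orthogonalComplement_iSup_eigenspaces_eq_bot`, Mathlib.Analysis.InnerProductSpace.Spectrum): contradiction.  So some eigenspace `V` for `c ≠ 0`, finite dimensional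
(`ContinuousLinearMap.finite_dimensional_eigenspace`), invariant under all `r z` (commute with `T`), has `r g ≠ 1` on it.  `ρ z` = the matrix of `r z` on `V` in an orthonormal basis: `(ρ z) i j = ⟪b i, r z (b j)⟫`, unitary, continuous in `z`. -/
def PwnStmt : Prop := ∀ (K : Type) [Group K] [TopologicalSpace K] [IsTopologicalGroup K]
  [CompactSpace K] [TopologicalSpace.MetrizableSpace K] (g : K), g ≠ 1 →
  ∃ (n : ℕ) (ρ : K →* Matrix.unitaryGroup (Fin n) ℂ), Continuous ρ ∧ ρ g ≠ 1

/-- **TRA** (medium).  A connected torsion group of unitary matrices is trivial.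
PROOF. The eigenvalues of `ρ g` are roots of unity, so the trace of `ρ g` (the sum of the roots of the characteristic polynomial, `Matrix.trace_eq_sum_roots_charpoly`) is in the countable set of the sums of `n` roots of unity.  `K` is preconnected and `g ↦ trace (ρ g)` is
continuous: its image is a preconnected countable subset of `ℂ`, so one point (`IsPreconnected`, countable sets are totally disconnected: `Set.Countable.isTotallyDisconnected` or the like), `trace (ρ g) = trace 1 = n`.  A unitary matrix `U` with
trace `n` is 1: `∑ |U i j - δ i j|² = 2 n - 2 Re trace U = 0`. -/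
def TraStmt : Prop := ∀ (K : Type) [Group K] [TopologicalSpace K] [PreconnectedSpace K] (n : ℕ)
  (ρ : K →* Matrix.unitaryGroup (Fin n) ℂ), Continuous ρ →
  (∀ g, ∃ m : ℕ, 0 < m ∧ (ρ g) ^ m = 1) → ∀ g, ρ g = 1

/-- **MON** (medium).  A character of infinite order on a monothetic subgroup.
PROOF. The unitary matrix `ρ g` is diagonalizable; if all its eigenvalues were roots of unity a power of it would be 1.  So there is an eigenvalue `α` with `α ^ m ≠ 1` for all `m > 0`; `v` an eigenvector of norm 1.  `B` = the closure of `Subgroup.zpowers g`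
(`Subgroup.topologicalClosure`), commutative.  The set of the `b` such that `ρ b v ∈ ℂ v` is closed and contains the powers of `g`: for `b ∈ B` `ρ b v = χ b v`, `χ b = ⟪v, ρ b v⟫` of absolute value 1, a continuous homomorphism, `χ g = α`. -/
def MonStmt : Prop := ∀ (K : Type) [Group K] [TopologicalSpace K] [IsTopologicalGroup K]
  [T2Space K] (n : ℕ) (ρ : K →* Matrix.unitaryGroup (Fin n) ℂ), Continuous ρ →
  ∀ g : K, (∀ m : ℕ, 0 < m → (ρ g) ^ m ≠ 1) →
  ∃ B : Subgroup K, IsClosed (B : Set K) ∧ (∀ a b : B, a * b = b * a) ∧
    ∃ χ : B →ₜ* Circle, ∀ m : ℕ, 0 < m → ∃ k, (χ k) ^ m ≠ 1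

/-- **NCG** (medium; uses PWN TRA MON OPB).  Compact groups which are not totally disconnected have a nontrivial one-parameter subgroup.
PROOF. `C` = the connected component of 1 (`Subgroup.connectedComponentOfOne K`), a closed, so compact, connected subgroup, not trivial (otherwise all components are points, by translation).  `g ∈ C`, `g ≠ 1`; PWN for the group `C`: `ρ g ≠ 1`; TRA: there is
`g' ∈ C` with `(ρ g') ^ m ≠ 1` for all `m > 0`; MON: `B ≤ C`, `χ`; OPB for `B` (compact, metrizable, commutative): `γ : ℝ → B`; compose with the inclusions. -/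
def NcgStmt : Prop := ∀ (K : Type) [Group K] [TopologicalSpace K] [IsTopologicalGroup K]
  [CompactSpace K] [TopologicalSpace.MetrizableSpace K], ¬ TotallyDisconnectedSpace K →
  ∃ γ : ℝ → K, Continuous γ ∧ (∀ s t, γ (s + t) = γ s * γ t) ∧ ∃ t, γ t ≠ 1

/-! ## Block R: totally disconnected compact groups, and complete groups -/

/-- **BRO** (STRONG).  Brouwer's theorem: the Cantor set.
PROOF. (1) every clopen nonempty set is infinite (no isolated points), so for every `m ≥ 1` it can be partitioned into exactly `m` nonempty clopen sets; for every `ε` it has a finite partition into nonempty clopen sets of diameter `< ε` (compact, the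
clopen sets are a base: `isTopologicalBasis_isClopen`), and, splitting one of them further, one with exactly `2 ^ k` members for all large `k`.  (2) Recursion: clopen nonempty sets `A s`, `s` a finite 0-1-sequence, `A (s0) ⊔ A (s1) = A s`, such that for every `ε` all
`A s` with `s` long enough have diameter `< ε`.  It is enough to do (2) in steps of `k_n` levels: a partition of `A s` into `2 ^ k` nonempty clopen sets indexed by the 0-1-sequences of length `k` defines all intermediate levels as unions.  (Or: a step function `X → (Fin k → Bool)`, a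
continuous surjection on every cell; the product of all of them `X → (ℕ → Bool)` is continuous, injective, onto.)  (3) `x ↦` the branch of `x` is a continuous bijection `X → (ℕ → Bool)` (onto: nested nonempty compact sets), `X` compact: homeomorphism. -/
def BroStmt : Prop := ∀ (X : Type) [TopologicalSpace X] [CompactSpace X]
  [TopologicalSpace.MetrizableSpace X] [TotallyDisconnectedSpace X] [Nonempty X],
  (∀ x : X, ¬ IsOpen ({x} : Set X)) → Nonempty (X ≃ₜ (ℕ → Bool))

/-- **CPT** (easy-medium; uses BRO CPE BRI).  Infinite totally disconnected compact metrizable groups are S-stable.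
PROOF. `K` is infinite and compact, so not discrete, so no point is open (translation).  `K × OnePoint ℕ` is compact, metrizable, totally disconnected, without isolated points.  BRO twice: both are homeomorphic to `ℕ → Bool`, so to each other; CPE (1), BRI. -/
def CptStmt : Prop := ∀ (K : Type) [Group K] [TopologicalSpace K] [IsTopologicalGroup K]
  [CompactSpace K] [TopologicalSpace.MetrizableSpace K] [TotallyDisconnectedSpace K] [Infinite K],
  SStable K

/-- **KLE** (STRONG).  A completely metrizable precompact group is compact.
PROOF. Let `H` be precompact and metrizable.  For every neighbourhood `U` of 1 there is a neighbourhood `V` with `x V x⁻¹ ⊆ U` for all `x` (`V'` with `V'^3 ⊆ U`, `F V' = H` finite, `V = ⋂_(f ∈ F) f⁻¹ ... `; take inverses), so the left and the right uniformity agree.  Way 1: `Additive H` is a uniform group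
(`IsUniformAddGroup`), `G = UniformSpace.Completion` is a compact (totally bounded and complete) Hausdorff group with `H` as a dense subgroup; `H` completely metrizable by `d`: `H = ⋂_n ⋃ {O open in G : diam_d (O ∩ H) < 1/n}` (a point of this set is the limit of a
`d`-Cauchy filter of `H`) is a `G_δ`; if `x ∉ H`, `x H` and `H` are disjoint dense `G_δ` sets of the compact space `G`, against Baire.  So `H = G`.  Way 2 (without completion): show that every sequence has a convergent subsequence: `H` is totally bounded, so every sequence has a
subsequence `x_n` which is Cauchy for the (bi-invariant) uniformity; by Baire's theorem in the product of the complete metric space `(H, d)` find `y` in the intersection of the open dense sets `{y : there are n, m ≥ N with d-small balls around y containing ... x_n y}` as in Klee's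
theorem, which gives convergence of `x_n y`.  (Either way.) -/
def KleStmt : Prop := ∀ (H : Type) [Group H] [TopologicalSpace H] [IsTopologicalGroup H]
  [TopologicalSpace.IsCompletelyMetrizableSpace H],
  (∀ U ∈ nhds (1 : H), ∃ F : Finset H, (⋃ g ∈ F, g • U) = Set.univ) → CompactSpace H

/-- **FNC** (assembly: helper18).  THE THEOREM -/
def FncStmt : Prop := ∀ (H : Type) [Group H] [TopologicalSpace H] [IsTopologicalGroup H]
  [TopologicalSpace.IsCompletelyMetrizableSpace H] [Infinite H],
  LStable H ∧ (CompactSpace H → SStable H)

end Pool.Agent.CMG
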